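import Pool.Agent.W965.LU.Stms

/-!
# Three small lemmas: DEG, PAT, RAM
-/

set_option autoImplicit false

namespace Pool.Agent.W358.LU.Small

open Pool.Agent.W965.LU

theorem deg : S_DEG := by
  intro Y f H hH h
  set good := Y.filter (fun v => 2 ^ (H - 2) * f v ≤ Y.card) with hgood
  set bad := Y.filter (fun v => ¬ (2 ^ (H - 2) * f v ≤ Y.card)) with hbad
  have h1 : good.card + bad.card = Y.card :=
    Finset.card_filter_add_card_filter_not (s := Y) (fun v => 2 ^ (H - 2) * f v ≤ Y.card)
  have h2 : bad.card * Y.card ≤ ∑ v ∈ bad, 2 ^ (H - 2) * f v := by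
    rw [← smul_eq_mul, ← Finset.sum_const]
    refine Finset.sum_le_sum fun v hv => ?_
    rw [hbad, Finset.mem_filter] at hv
    omega
  have h3 : ∑ v ∈ bad, 2 ^ (H - 2) * f v ≤ ∑ v ∈ Y, 2 ^ (H - 2) * f v :=
    Finset.sum_le_sum_of_subset (Finset.filter_subset _ _)
  rw [← Finset.mul_sum (s := Y)] at h3
  have h4 : 2 ^ H = 4 * 2 ^ (H - 2) := by
    obtain ⟨k, rfl⟩ := Nat.exists_eq_add_of_le hH
    rw [Nat.add_sub_cancel_left, pow_add]
    norm_num
  rw [h4, mul_assoc] at h
  have h5 : 4 * (bad.card * Y.card) ≤ 2 * Y.card ^ 2 :=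
    (Nat.mul_le_mul_left 4 (h2.trans h3)).trans h
  rcases Nat.eq_zero_or_pos Y.card with h0 | h0
  · omega
  · have h6 : (2 * bad.card) * Y.card ≤ Y.card * Y.card := by nlinarith [h5]
    have h7 := Nat.le_of_mul_le_mul_right h6 h0
    omega

theorem pat : S_PAT := by
  intro A J p hJ hA
  have hJ0 : (0 : ℝ) < J := by exact_mod_cast hJ
  set x : ℝ := 1 / J with hx
  have hx0 : 0 < x := by positivity
  have hx1 : x ≤ 1 := by
    rw [hx, div_le_one hJ0]
    exact_mod_cast hJ
  have h1 : ∑ T ∈ A.powerset, x ^ T.card = (x + 1) ^ A.card := by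
    have := Finset.sum_pow_mul_eq_add_pow x 1 A
    simpa using this
  have h2 : ((A.powerset.filter (fun T => T.card ≤ p)).card : ℝ) * x ^ p ≤
      ∑ T ∈ A.powerset, x ^ T.card := by
    rw [← nsmul_eq_mul, ← Finset.sum_const]
    refine (Finset.sum_le_sum (g := fun T : Finset ℕ => x ^ T.card) fun T hT => ?_).trans
      (Finset.sum_le_sum_of_subset_of_nonneg (Finset.filter_subset _ _)
        fun T _ _ => by positivity)
    rw [Finset.mem_filter] at hT
    exact pow_le_pow_of_le_one hx0.le hx1 hT.2
  have h3 : (x + 1) ^ A.card ≤ (4 : ℝ) ^ p := by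
    calc (x + 1) ^ A.card ≤ (x + 1) ^ (J * p) :=
          pow_le_pow_right₀ (by linarith) hA
      _ ≤ (Real.exp x) ^ (J * p) :=
          pow_le_pow_left₀ (by linarith) (Real.add_one_le_exp x) _
      _ = (Real.exp 1) ^ p := by
          rw [pow_mul, ← Real.exp_nat_mul]
          congr 2
          rw [hx]
          field_simp
      _ ≤ 4 ^ p := by
          refine pow_le_pow_left₀ (Real.exp_pos 1).le ?_ _
          have := Real.exp_one_lt_d9
          linarith
  have h4 : ((A.powerset.filter (fun T => T.card ≤ p)).card : ℝ) * x ^ p ≤ 4 ^ p :=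
    h2.trans (h1.le.trans h3)
  have h5 : ((A.powerset.filter (fun T => T.card ≤ p)).card : ℝ) ≤ (4 * J) ^ p := by
    have e : x ^ p * (J : ℝ) ^ p = 1 := by
      rw [← mul_pow, hx]
      rw [one_div_mul_cancel hJ0.ne', one_pow]
    calc ((A.powerset.filter (fun T => T.card ≤ p)).card : ℝ)
        = (((A.powerset.filter (fun T => T.card ≤ p)).card : ℝ) * x ^ p) * (J : ℝ) ^ p := by
          rw [mul_assoc, e, mul_one]
      _ ≤ 4 ^ p * (J : ℝ) ^ p := mul_le_mul_of_nonneg_right h4 (by positivity)
      _ = (4 * J) ^ p := by rw [mul_pow]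
  exact_mod_cast h5

theorem ram_aux (g : ℕ → ℕ → Bool) (c : Bool) (b : ℕ) (hg : ∀ a b, g a b = g b a) :
    ∀ (n k l : ℕ) (Z : Finset ℕ), k + l = n →
    (b + 1) ^ (k + l) ≤ (Z.card + 1) * b ^ l →
    (∃ I ⊆ Z, I.card = k ∧ Free g c I) ∨ (∃ I ⊆ Z, I.card = l ∧ Free g (!c) I) := by
  intro n
  induction n with
  | zero =>
    intro k l Z hkl _
    left
    exact ⟨∅, Finset.empty_subset _, by simp; omega, by intro a ha; simp at ha⟩
  | succ n ih =>
    intro k l Z hkl h
    rcases k with _ | k
    · left
      exact ⟨∅, Finset.empty_subset _, rfl, by intro a ha; simp at ha⟩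
    rcases l with _ | l
    · right
      exact ⟨∅, Finset.empty_subset _, rfl, by intro a ha; simp at ha⟩
    have hZ : Z.Nonempty := by
      rw [Finset.nonempty_iff_ne_empty]
      rintro rfl
      rw [Finset.card_empty, zero_add, one_mul] at h
      have h1 : b ^ (l + 1) ≤ (b + 1) ^ (l + 1) := Nat.pow_le_pow_left (Nat.le_succ b) _
      rcases Nat.eq_zero_or_pos b with hb | hb
      · subst hb
        simp at h
      · have h2 : (b + 1) ^ (l + 1) < (b + 1) ^ (k + 1 + (l + 1)) :=
          Nat.pow_lt_pow_right (by omega) (by omega)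
        omega
    obtain ⟨v, hv⟩ := hZ
    set N1 := (Z.erase v).filter (fun y => g v y = c) with hN1
    set N2 := (Z.erase v).filter (fun y => ¬ (g v y = c)) with hN2
    have hc : N1.card + N2.card = (Z.erase v).card :=
      Finset.card_filter_add_card_filter_not (s := Z.erase v) (fun y => g v y = c)
    have hc2 : (Z.erase v).card + 1 = Z.card := Finset.card_erase_add_one hv
    have hins : ∀ (c' : Bool) (I : Finset ℕ), (∀ y ∈ I, y ≠ v ∧ g v y ≠ c') → Free g c' I →
        Free g c' (insert v I) ∧ (insert v I).card = I.card + 1 := by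
      intro c' I hI hF
      refine ⟨?_, Finset.card_insert_of_notMem fun hvI => (hI v hvI).1 rfl⟩
      intro x hx y hy hxy
      rw [Finset.mem_insert] at hx hy
      rcases hx with rfl | hx
      · rcases hy with rfl | hy
        · exact absurd rfl hxy
        · exact (hI y hy).2
      · rcases hy with rfl | hy
        · rw [hg]
          exact (hI x hx).2
        · exact hF x hx y hy hxy
    by_cases c1 : (b + 1) ^ (k + 1 + l) ≤ (N1.card + 1) * b ^ l
    · rcases ih (k + 1) l N1 (by omega) c1 with ⟨I, hI, hIc, hIF⟩ | ⟨I, hI, hIc, hIF⟩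
      · left
        exact ⟨I, hI.trans ((Finset.filter_subset _ _).trans (Finset.erase_subset _ _)), hIc, hIF⟩
      · right
        have hprop : ∀ y ∈ I, y ≠ v ∧ g v y ≠ (!c) := by
          intro y hy
          have := hI hy
          rw [hN1, Finset.mem_filter, Finset.mem_erase] at this
          refine ⟨this.1.1, ?_⟩
          rw [this.2]
          cases c <;> simp
        obtain ⟨q1, q2⟩ := hins (!c) I hprop hIF
        refine ⟨insert v I, ?_, by rw [q2, hIc], q1⟩
        refine Finset.insert_subset hv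
          (hI.trans ((Finset.filter_subset _ _).trans (Finset.erase_subset _ _)))
    · by_cases c2 : (b + 1) ^ (k + (l + 1)) ≤ (N2.card + 1) * b ^ (l + 1)
      · rcases ih k (l + 1) N2 (by omega) c2 with ⟨I, hI, hIc, hIF⟩ | ⟨I, hI, hIc, hIF⟩
        · left
          have hprop : ∀ y ∈ I, y ≠ v ∧ g v y ≠ c := by
            intro y hy
            have := hI hy
            rw [hN2, Finset.mem_filter, Finset.mem_erase] at this
            exact ⟨this.1.1, this.2⟩
          obtain ⟨q1, q2⟩ := hins c I hprop hIF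
          refine ⟨insert v I, ?_, by rw [q2, hIc], q1⟩
          refine Finset.insert_subset hv
            (hI.trans ((Finset.filter_subset _ _).trans (Finset.erase_subset _ _)))
        · right
          exact ⟨I, hI.trans ((Finset.filter_subset _ _).trans (Finset.erase_subset _ _)), hIc,
            hIF⟩
      · exfalso
        push Not at c1 c2
        have e1 : (Z.card + 1) * b ^ (l + 1) =
            (N1.card + 1) * b ^ l * b + (N2.card + 1) * b ^ (l + 1) := by
          rw [← hc2, ← hc]
          ring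
        have e2 : (b + 1) ^ (k + 1 + (l + 1)) =
            (b + 1) ^ (k + 1 + l) * b + (b + 1) ^ (k + (l + 1)) := by
          have : k + (l + 1) = k + 1 + l := by ring
          rw [this]
          ring
        rw [e1, e2] at h
        have e3 : (N1.card + 1) * b ^ l * b ≤ (b + 1) ^ (k + 1 + l) * b :=
          Nat.mul_le_mul_right b c1.le
        omega

theorem ram : S_RAM := by
  intro g c a k l Z hg ha h
  obtain ⟨b, rfl⟩ : ∃ b, a = b + 1 := ⟨a - 1, by omega⟩
  rw [Nat.add_sub_cancel] at h
  exact ram_aux g c b hg (k + l) k l Z rfl h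

end Pool.Agent.W358.LU.Small
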